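import Pool.Agent.Y120.J.Defs

/-!
# Points of the upper half-plane where `j` is real and large
-/

set_option autoImplicit false

open Filter Topology UpperHalfPlane ModularForm EisensteinSeries
open Pool.Agent.TH21.MS

namespace Pool.Agent.Y988.J

theorem inv4 (γ : Matrix.SpecialLinearGroup (Fin 2) ℤ) (z : ℍ) :
    E₄ (γ • z) = denom (Matrix.SpecialLinearGroup.mapGL ℝ γ) z ^ 4 * E₄ z := by
  have hγ : Matrix.SpecialLinearGroup.mapGL ℝ γ ∈
      MonoidHom.range (Matrix.SpecialLinearGroup.mapGL (R := ℤ) (n := Fin 2) ℝ) := ⟨γ, rfl⟩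
  have h := SlashInvariantForm.slash_action_eqn'' E₄ hγ z
  have h2 : (Matrix.SpecialLinearGroup.mapGL ℝ γ) • z = γ • z := rfl
  rw [h2] at h
  rw [h]
  rfl

theorem inv6 (γ : Matrix.SpecialLinearGroup (Fin 2) ℤ) (z : ℍ) :
    E₆ (γ • z) = denom (Matrix.SpecialLinearGroup.mapGL ℝ γ) z ^ 6 * E₆ z := by
  have hγ : Matrix.SpecialLinearGroup.mapGL ℝ γ ∈
      MonoidHom.range (Matrix.SpecialLinearGroup.mapGL (R := ℤ) (n := Fin 2) ℝ) := ⟨γ, rfl⟩
  have h := SlashInvariantForm.slash_action_eqn'' E₆ hγ z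
  have h2 : (Matrix.SpecialLinearGroup.mapGL ℝ γ) • z = γ • z := rfl
  rw [h2] at h
  rw [h]
  rfl

theorem jj_inv (γ : Matrix.SpecialLinearGroup (Fin 2) ℤ) (z : ℍ) : jj (γ • z : ℍ) = jj z := by
  unfold jj
  rw [E4_eq, E6_eq, inv4, inv6, ← E4_eq, ← E6_eq]
  have h := disc_ne z
  set d := denom (Matrix.SpecialLinearGroup.mapGL ℝ γ) (z : ℂ) with hd
  have hz : d ≠ 0 := denom_ne_zero _ z
  have h2 : (d ^ 4 * E4 z) ^ 3 - (d ^ 6 * E6 z) ^ 2 = d ^ 12 * (E4 z ^ 3 - E6 z ^ 2) := by ring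
  rw [h2]
  field_simp

/-- `1 / j` as a function of `q` -/
noncomputable def Fq (q : ℂ) : ℂ :=
  q * ((720 * A3 ℂ q + 172800 * q * A3 ℂ q ^ 2 + 13824000 * q ^ 2 * A3 ℂ q ^ 3 +
    1008 * A5 ℂ q - 254016 * q * A5 ℂ q ^ 2) / (1728 * (1 + 240 * (q * A3 ℂ q)) ^ 3))

/-- the parameter -/
noncomputable def qq (τ : ℂ) : ℂ := Complex.exp (2 * (Real.pi : ℂ) * Complex.I * τ)

theorem inv_jj (τ : ℂ) : (jj τ)⁻¹ = Fq (qq τ) := by
  unfold jj Fq
  rw [E4_q, E6_q]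
  change _ = qq τ * _
  rw [show Complex.exp (2 * (Real.pi : ℂ) * Complex.I * τ) = qq τ from rfl]
  rw [inv_div, ← mul_div_assoc]
  congr 1
  ring

theorem A3c_zero : A3 ℂ 0 = 1 := by
  have := A3_ofReal 0
  rw [A3_zero] at this
  simpa using this

theorem A5c_zero : A5 ℂ 0 = 1 := by
  have := A5_ofReal 0
  rw [A5_zero] at this
  simpa using this

theorem Fq_strict : HasStrictDerivAt Fq 1 0 := by
  have hb : (0 : ℂ) ∈ Metric.ball (0 : ℂ) 1 := by simp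
  have h3 := A3_an ℂ 0 hb
  have h5 := A5_an ℂ 0 hb
  have hid : AnalyticAt ℂ (fun q : ℂ => q) 0 := analyticAt_id
  have hnum : AnalyticAt ℂ (fun q : ℂ => 720 * A3 ℂ q + 172800 * q * A3 ℂ q ^ 2 +
      13824000 * q ^ 2 * A3 ℂ q ^ 3 + 1008 * A5 ℂ q - 254016 * q * A5 ℂ q ^ 2) 0 := by
    exact (((((analyticAt_const.mul h3).add ((analyticAt_const.mul hid).mul (h3.pow 2))).add
      ((analyticAt_const.mul (hid.pow 2)).mul (h3.pow 3))).add (analyticAt_const.mul h5)).sub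
      ((analyticAt_const.mul hid).mul (h5.pow 2)))
  have hden : AnalyticAt ℂ (fun q : ℂ => 1728 * (1 + 240 * (q * A3 ℂ q)) ^ 3) 0 :=
    analyticAt_const.mul ((analyticAt_const.add (analyticAt_const.mul (hid.mul h3))).pow 3)
  have hw : AnalyticAt ℂ (fun q : ℂ => (720 * A3 ℂ q + 172800 * q * A3 ℂ q ^ 2 +
      13824000 * q ^ 2 * A3 ℂ q ^ 3 + 1008 * A5 ℂ q - 254016 * q * A5 ℂ q ^ 2) /
      (1728 * (1 + 240 * (q * A3 ℂ q)) ^ 3)) 0 := hnum.fun_div hden (by simp)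
  have h := (hasStrictDerivAt_id (0 : ℂ)).mul hw.hasStrictDerivAt
  have h3' : Fq = (id * fun q : ℂ => (720 * A3 ℂ q + 172800 * q * A3 ℂ q ^ 2 +
      13824000 * q ^ 2 * A3 ℂ q ^ 3 + 1008 * A5 ℂ q - 254016 * q * A5 ℂ q ^ 2) /
      (1728 * (1 + 240 * (q * A3 ℂ q)) ^ 3)) := by
    funext q
    rfl
  rw [h3']
  refine h.congr_deriv ?_
  rw [A3c_zero, A5c_zero]
  norm_num

theorem Fq_inj : ∃ ε : ℝ, 0 < ε ∧ ∀ a b : ℂ, ‖a‖ < ε → ‖b‖ < ε → Fq a = Fq b → a = b := by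
  have h := (Fq_strict.isLittleO).def (show (0 : ℝ) < 1 / 2 by norm_num)
  rw [Metric.eventually_nhds_iff] at h
  obtain ⟨ε, hε, h1⟩ := h
  refine ⟨ε, hε, fun a b ha hb hab => ?_⟩
  have h2 := @h1 (a, b) (by
    rw [Prod.dist_eq]
    simp only [dist_zero_right]
    exact max_lt ha hb)
  simp only [hab, sub_self, zero_sub, norm_neg] at h2
  have h3 : ‖a - b‖ ≤ 1 / 2 * ‖a - b‖ := by
    refine le_trans (le_of_eq ?_) h2
    simp
  have h4 : ‖a - b‖ ≤ 0 := by linarith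
  exact sub_eq_zero.1 (norm_le_zero_iff.1 h4)

theorem norm_qq (τ : ℂ) : ‖qq τ‖ = Real.exp (-(2 * Real.pi * τ.im)) := by
  unfold qq
  rw [Complex.norm_exp]
  congr 1
  simp [Complex.mul_re, Complex.mul_im]

theorem bound (Y : ℝ) : ∃ B : ℝ, ∀ τ : ℂ, |τ.re| ≤ 1 / 2 → 1 / 2 ≤ τ.im → τ.im ≤ Y →
    ‖jj τ‖ ≤ B := by
  have hK : IsCompact (Set.Icc (-(1 / 2) : ℝ) (1 / 2) ×ℂ Set.Icc (1 / 2 : ℝ) Y) :=
    isCompact_Icc.reProdIm isCompact_Icc
  have hc : ContinuousOn jj (Set.Icc (-(1 / 2) : ℝ) (1 / 2) ×ℂ Set.Icc (1 / 2 : ℝ) Y) := by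
    intro τ hτ
    rw [Complex.mem_reProdIm] at hτ
    exact (jj_an τ (by linarith [hτ.2.1])).continuousAt.continuousWithinAt
  obtain ⟨B, hB⟩ := hK.exists_bound_of_continuousOn hc
  refine ⟨B, fun τ h1 h2 h3 => hB τ ?_⟩
  rw [Complex.mem_reProdIm]
  exact ⟨abs_le.1 h1 |>.imp id id |> fun h => ⟨by linarith [h.1], h.2⟩, h2, h3⟩

theorem g0_large (t : ℝ) (Y : ℝ) : ∃ y, Y ≤ y ∧ t ≤ g0 y := by
  obtain ⟨y0, hy0, h⟩ := g0_log
  refine ⟨max (max Y y0) ((1 + Real.log (max t 1)) / (2 * Real.pi)),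
    (le_max_left Y y0).trans (le_max_left _ _), ?_⟩
  set y := max (max Y y0) ((1 + Real.log (max t 1)) / (2 * Real.pi)) with hy
  obtain ⟨h1, h2⟩ := h y ((le_max_right Y y0).trans (le_max_left _ _))
  have h3 : (1 + Real.log (max t 1)) / (2 * Real.pi) ≤ y := le_max_right _ _
  rw [div_le_iff₀ (by positivity)] at h3
  have h4 := (abs_le.1 h2).1
  have h5 : Real.log (max t 1) ≤ Real.log (g0 y) := by linarith
  have h6 : (0 : ℝ) < max t 1 := lt_of_lt_of_le one_pos (le_max_right _ _)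
  exact (le_max_left t 1).trans ((Real.log_le_log_iff h6 h1).1 h5)

open Pool.Agent.Y120.J in
/-- **the points where `j` is real and large** -/
theorem t_fd : T_FD := by
  intro Y
  obtain ⟨ε, hε, hinj⟩ := Fq_inj
  -- the height
  obtain ⟨Y1, hY1, hY1', hYε⟩ : ∃ Y1 : ℝ, Y ≤ Y1 ∧ 1 ≤ Y1 ∧ Real.exp (-(2 * Real.pi * Y1)) < ε := by
    have h1 := (xx_tendsto.eventually_lt_const hε).and
      ((eventually_ge_atTop Y).and (eventually_ge_atTop (1 : ℝ)))
    obtain ⟨y, h2, h3, h4⟩ := h1.exists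
    exact ⟨y, h3, h4, h2⟩
  obtain ⟨B, hB⟩ := bound Y1
  refine ⟨max B 0 + 1, fun z t ht hz => ?_⟩
  have hBt : B < t := by linarith [le_max_left B 0]
  have ht0 : 0 < t := by linarith [le_max_right B 0]
  obtain ⟨γ, hγ⟩ := ModularGroup.exists_smul_mem_fd z
  set w : ℍ := γ • z with hw
  have hjw : jj w = t := by rw [hw, jj_inv, hz]
  have him : 1 / 2 ≤ w.im := by
    have h1 := ModularGroup.three_le_four_mul_im_sq_of_mem_fd hγ
    have h2 := w.im_pos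
    nlinarith
  have hre : |w.re| ≤ 1 / 2 := hγ.2
  have hwY : Y1 < w.im := by
    by_contra hcon
    push Not at hcon
    have h1 := hB (w : ℂ) hre him hcon
    rw [hjw, Complex.norm_real, Real.norm_eq_abs, abs_of_pos ht0] at h1
    linarith
  -- the point of the imaginary axis
  obtain ⟨y, hyY, hyt⟩ : ∃ y, Y1 ≤ y ∧ g0 y = t := by
    obtain ⟨y2, hy2, hy2t⟩ := g0_large t Y1
    have hcont : ContinuousOn g0 (Set.Icc Y1 y2) := fun y hy =>
      (g0_an y (show (0 : ℝ) < y by linarith [hy.1])).continuousAt.continuousWithinAt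
    have h1 : g0 Y1 ≤ t := by
      have h2 := hB (Complex.I * Y1) (by simp) (by simpa using by linarith) (by simp)
      rw [jj_I, Complex.norm_real, Real.norm_eq_abs] at h2
      linarith [le_abs_self (g0 Y1)]
    obtain ⟨y, hy, hy'⟩ := intermediate_value_Icc hy2 hcont ⟨h1, hy2t⟩
    exact ⟨y, hy.1, hy'⟩
  have hy0 : 0 < y := by linarith
  have hq : qq (w : ℂ) = qq (Complex.I * y) := by
    apply hinj
    · rw [norm_qq]
      refine lt_of_le_of_lt (Real.exp_le_exp.2 ?_) hYε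
      have := Real.pi_pos
      have h2 : (w : ℂ).im = w.im := rfl
      rw [h2]
      nlinarith
    · rw [norm_qq]
      refine lt_of_le_of_lt (Real.exp_le_exp.2 ?_) hYε
      have := Real.pi_pos
      have h2 : (Complex.I * (y : ℂ)).im = y := by simp
      rw [h2]
      nlinarith
    · rw [← inv_jj, ← inv_jj, hjw, jj_I, hyt]
  unfold qq at hq
  rw [Complex.exp_eq_exp_iff_exists_int] at hq
  obtain ⟨n, hn⟩ := hq
  have hwn : (w : ℂ) = Complex.I * y + n := by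
    have h2 : (2 * (Real.pi : ℂ) * Complex.I) ≠ 0 := by
      simp [Real.pi_ne_zero]
    apply mul_left_cancel₀ h2
    rw [hn]
    ring
  have hn0 : n = 0 := by
    have h1 : w.re = n := by
      have := congrArg Complex.re hwn
      simpa using this
    rw [h1] at hre
    have h2 : |(n : ℝ)| < 1 := by linarith
    have h3 : |n| < 1 := by exact_mod_cast h2
    exact Int.abs_lt_one_iff.1 h3
  rw [hn0, Int.cast_zero, add_zero] at hwn
  refine ⟨γ⁻¹, y, hy0, hY1.trans hyY, ?_, hyt⟩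
  have h1 : w = (⟨Complex.I * y, by simpa using hy0⟩ : ℍ) := by
    apply UpperHalfPlane.ext
    exact hwn
  rw [← h1, hw, inv_smul_smul]

end Pool.Agent.Y988.J
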